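import Mathlib
import Pool.Agent.EDG.StmtsC

/-!
# Squad EDG, row CYI (helper97)
-/

set_option autoImplicit false

namespace Pool.Agent.EDG.H97

open Polynomial Pool.Agent.EDG.C

theorem fc_ap {B : Type*} [CommRing B] (c y : B) : fc c y = y ^ 2 + c := rfl

/-- the first two coefficients of an orbit over `ℂ[t]` -/
theorem coeffs (c0 x0 a b : ℂ) (d : ℕ → ℂ) (h0 : d 0 = b)
    (hs : ∀ j, d (j + 1) = 2 * (fc c0)^[j] x0 * d j + a) (j : ℕ) :
    ((fc (C c0 + C a * X : ℂ[X]))^[j] (C x0 + C b * X)).coeff 0 = (fc c0)^[j] x0 ∧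
      ((fc (C c0 + C a * X : ℂ[X]))^[j] (C x0 + C b * X)).coeff 1 = d j := by
  induction j with
  | zero => simp [h0, coeff_X, coeff_C]
  | succ j ih =>
    obtain ⟨ih0, ih1⟩ := ih
    rw [Function.iterate_succ_apply', Function.iterate_succ_apply', hs j]
    set p := (fc (C c0 + C a * X : ℂ[X]))^[j] (C x0 + C b * X) with hp
    rw [fc_ap, fc_ap]
    constructor
    · simp only [coeff_add, pow_two, mul_coeff_zero, coeff_C_zero, coeff_X_zero, mul_zero, add_zero]
      rw [ih0]
    · rw [pow_two, coeff_add, coeff_add, coeff_mul, Finset.Nat.antidiagonal_succ]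
      simp only [Finset.Nat.antidiagonal_zero, Finset.map_singleton, Finset.sum_cons,
        Finset.sum_singleton, Function.Embedding.prodMap, coeff_C_mul, coeff_X_one, coeff_C]
      simp only [Function.Embedding.coeFn_mk, Prod.map_apply, Function.Embedding.refl_apply,
        Nat.succ_eq_add_one, zero_add, one_ne_zero, if_false, mul_one, ih0, ih1]
      ring

theorem fin_val_succ (m : ℕ) (k : Fin (m + 1)) :
    ((k + 1 : Fin (m + 1)) : ℕ) = if (k : ℕ) = m then 0 else (k : ℕ) + 1 := by
  split_ifs with hk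
  · have : k = Fin.last m := Fin.ext hk
    rw [this, Fin.last_add_one]
    rfl
  · apply Fin.val_add_one_of_lt
    rw [Fin.lt_def]
    have := k.2
    simp only [Fin.val_last]
    omega

theorem val_succ (m : ℕ) (k : ZMod (m + 1)) :
    (k + 1).val = if k.val = m then 0 else k.val + 1 := fin_val_succ m k

/-- **Row CYI** -/
theorem cyi (hQ : QdiStmt) : CyiStmt := by
  intro c0 x0 n hn hper hex hdiv
  obtain ⟨m, rfl⟩ : ∃ m, n = m + 1 := ⟨n - 1, by omega⟩
  set f := fc c0 with hf
  -- the sequence of derivatives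
  have key : ∀ a b : ℂ, ∀ d : ℕ → ℂ, d 0 = b → (∀ j, d (j + 1) = 2 * f^[j] x0 * d j + a) →
      d (m + 1) = b := by
    intro a b d h0 hs
    have h1 := (coeffs c0 x0 a b d h0 hs (m + 1)).2
    have h2 := (X_pow_dvd_iff.1 (hdiv a b)) 1 (by norm_num)
    rw [coeff_sub, h1] at h2
    simp only [coeff_add, coeff_C_mul, coeff_X_one, coeff_C, one_ne_zero, if_false, mul_one,
      zero_add] at h2
    exact sub_eq_zero.1 h2
  -- multiplier one
  let M : ℕ → ℂ := fun j => ∏ i ∈ Finset.range j, 2 * f^[i] x0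
  have hM : M (m + 1) = 1 := key 0 1 M (by simp [M]) (by
    intro j
    simp only [M, Finset.prod_range_succ]
    ring)
  let B : ℕ → ℂ := fun j => ∏ i ∈ Finset.Ico j (m + 1), 2 * f^[i] x0
  have hB0 : B 0 = 1 := by
    simp only [B]
    rw [← Finset.range_eq_Ico]
    exact hM
  have hBn : B (m + 1) = 1 := by simp [B]
  have hBs : ∀ j, j < m + 1 → B j = 2 * f^[j] x0 * B (j + 1) := by
    intro j hj
    simp only [B]
    exact Finset.prod_eq_prod_Ico_succ_bot hj _
  -- parameter derivative zero
  let D : ℕ → ℂ := fun j => Nat.rec 0 (fun i y => 2 * f^[i] x0 * y + 1) j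
  have hD0 : D 0 = 0 := rfl
  have hDs : ∀ j, D (j + 1) = 2 * f^[j] x0 * D j + 1 := fun j => rfl
  have hDn : D (m + 1) = 0 := key 1 0 D hD0 hDs
  have hsum : ∀ j, j ≤ m + 1 → D j * B j = ∑ i ∈ Finset.range j, B (i + 1) := by
    intro j
    induction j with
    | zero => intro _; simp [hD0]
    | succ j ih =>
      intro hj
      rw [Finset.sum_range_succ, ← ih (by omega), hBs j (by omega), hDs j]
      ring
  have hS : ∑ i ∈ Finset.range (m + 1), B i = 0 := by
    have h1 := hsum (m + 1) le_rfl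
    rw [hDn, zero_mul] at h1
    have h2 : ∑ i ∈ Finset.range (m + 1), B i = ∑ i ∈ Finset.range (m + 1), B (i + 1) := by
      rw [Finset.sum_range_succ' (fun i => B i), Finset.sum_range_succ (fun i => B (i + 1)), hB0, hBn]
    rw [h2, ← h1]
  -- the cycle
  have hinj : ∀ i j, i < j → j < m + 1 → f^[i] x0 ≠ f^[j] x0 := by
    intro i j hij hj he
    have h1 : f^[i + (m + 1 - j)] x0 = x0 := by
      have h2 : f^[m + 1 - j] (f^[i] x0) = f^[m + 1 - j] (f^[j] x0) := by rw [he]
      rw [← Function.iterate_add_apply, ← Function.iterate_add_apply] at h2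
      rw [show m + 1 - j + j = m + 1 by omega, hper] at h2
      rw [show i + (m + 1 - j) = m + 1 - j + i by omega]
      exact h2
    exact hex (i + (m + 1 - j)) (by omega) (by omega) h1
  refine hQ c0 (m + 1) (fun k => f^[k.val] x0) (fun k => B k.val) ?_ ?_ ?_ ?_ ?_
  · intro i j hij
    have hi : i.val < m + 1 := ZMod.val_lt i
    have hj : j.val < m + 1 := ZMod.val_lt j
    rcases lt_trichotomy i.val j.val with h | h | h
    · exact absurd hij (hinj _ _ h hj)
    · exact ZMod.val_injective (m + 1) h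
    · exact absurd hij.symm (hinj _ _ h hi)
  · intro k
    have h1 : (f^[k.val] x0) ^ 2 + c0 = f^[k.val + 1] x0 := by
      rw [Function.iterate_succ_apply', hf]
      rfl
    rw [h1, val_succ]
    split_ifs with hk
    · rw [hk, hper]
      rfl
    · rfl
  · intro k
    have hk1 : k.val < m + 1 := ZMod.val_lt k
    rw [hBs k.val hk1, val_succ]
    split_ifs with hk
    · rw [hk, hBn, hB0]
      ring
    · ring
  · have h0 : B (ZMod.val (0 : ZMod (m + 1))) = 1 := by
      rw [ZMod.val_zero]
      exact hB0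
    rw [h0]
    exact one_ne_zero
  · have h1 : ∑ k : Fin (m + 1), B (k : ℕ) = 0 := by
      rw [Fin.sum_univ_eq_sum_range (fun i => B i) (m + 1)]
      exact hS
    exact h1

end Pool.Agent.EDG.H97
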